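import Pool.Agent.Helper41.SQ.GoalsN

/-!
Project SQ (MP_bb32d1_al), stage B, SGE.
-/

set_option autoImplicit false
set_option linter.unusedSectionVars false

namespace Pool.Agent.Helper82.SQN

noncomputable section

open Matrix Pool.Agent.Helper19.SQ Pool.Agent.Helper34.SQ Pool.Agent.Helper41.SQ

theorem n_sge (hSGF : Pool.Agent.Helper41.SQ.S_SGF) (hWT : Pool.Agent.Helper41.SQ.S_WT) :
    Pool.Agent.Helper41.SQ.S_SGE := by
  intro A _ _ ι _ _ S l e types h β hB τ m hτ j
  induction j with
  | zero =>
    intro d a b
    simp only [sge, mul_one]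
  | succ j ih =>
    intro p a b
    show ∑ k, ∑ x, ∑ y, S.R (a, x) (k, y) *
        sge S τ (fun j => e (m + (j + 1) • β)) j x y (S.D (b * e (m + (j + 1 + 1) • β)) k p) =
      ∑ k, ∑ x, ∑ y, S.R (a, x) (k, y) *
        sge S τ (fun _ => 1) j x y (S.D (b * e (m + (j + 1 + 1) • β) * 1) k p)
    refine Finset.sum_congr rfl fun k _ => Finset.sum_congr rfl fun x _ =>
      Finset.sum_congr rfl fun y _ => ?_
    rw [ih, mul_one]
    congr 1
    set Y : A := S.D (b * e (m + (j + 1 + 1) • β)) k p with hY
    let G : A →+ ℂ :=
      { toFun := fun b => ∑ K, τ ((run (nR (tow S j).r (tow S j).R) 0 j *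
          nH S (tow S j).H b) (y, K) (x, K))
        map_zero' := by simp
        map_add' := fun b b' => by
          simp only [map_add, mul_add, Matrix.add_apply, Finset.sum_add_distrib] }
    have hG : ∀ b, sge S τ (fun _ => 1) j x y b = G b := fun b => hSGF A ι S τ j x y b
    rw [hG, hG]
    have hsum : Y = ∑ m' ∈ types, Y * e m' := by
      rw [← Finset.mul_sum, hB.sum, mul_one]
    have hv : ∀ m', m' ≠ m + (j + 1) • β → G (Y * e m') = 0 := by
      intro m' hm'
      by_cases hz : S.D (e (m + (j + 1 + 1) • β)) * Matrix.diagonal (fun _ => e m') = 0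
      · have h0 : Y * e m' = 0 := by
          have h1 : Y * e m' = (S.D (b * e (m + (j + 1 + 1) • β)) *
              Matrix.diagonal (fun _ => e m') : Matrix ι ι A) k p := by
            rw [Matrix.mul_diagonal]
          rw [h1, map_mul, mul_assoc, hz, mul_zero]
          rfl
        rw [h0, map_zero]
      · rcases hB.bl _ _ hz with h1 | h1
        · have h2 : h m + ((j + 1 : ℕ) : ℤ) < h m' := by
            rw [map_add, map_nsmul, hB.hβ, nsmul_eq_mul, mul_one] at h1
            push_cast at h1 ⊢
            linarith
          have h3 : nH S (tow S j).H (e m') * Matrix.diagonal (fun _ => e m) = 0 :=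
            hWT A ι S l e types h β hB (j + 1) m m' h2
          show ∑ K, τ ((run (nR (tow S j).r (tow S j).R) 0 j *
            nH S (tow S j).H (Y * e m')) (y, K) (x, K)) = 0
          refine Finset.sum_eq_zero fun K _ => ?_
          rw [← hτ, map_mul (nH S (tow S j).H), ← mul_assoc]
          have h4 : ∀ M : Matrix (ι × (tow S j).κ) (ι × (tow S j).κ) A,
              M (y, K) (x, K) * e m = (M * Matrix.diagonal (fun _ => e m) :
                Matrix (ι × (tow S j).κ) (ι × (tow S j).κ) A) (y, K) (x, K) :=
            fun M => by rw [Matrix.mul_diagonal]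
          rw [h4, mul_assoc, h3, mul_zero, Matrix.zero_apply, map_zero]
        · exfalso
          apply hm'
          have h2 : m + (j + 1) • β + β = m' + β := by
            rw [← h1, add_assoc, ← succ_nsmul]
          exact (add_right_cancel h2).symm
    conv_rhs => rw [hsum, map_sum]
    rw [Finset.sum_eq_single (m + (j + 1) • β)]
    · intro m' _ hm'
      exact hv m' hm'
    · intro hm'
      rw [hB.zer _ hm', mul_zero, map_zero]

end

end Pool.Agent.Helper82.SQN
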