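import Pool.Agent.Helper84.SQ.GoalsD

/-!
# MP_ed7369_lc, packet SQ-COX: the algorithm for at most one concave variable is correct
-/

namespace Pool.Agent.Helper82.SQ

open Pool.Agent.Helper81.CC Pool.Agent.Bin
open Pool.Agent.Helper45.SQP (Inst TUInst Correct Code Output)
open Pool.Agent.Helper84.SQ

noncomputable section

/-- the convex coefficients -/
def qq (I : Inst) : Fin I.n → ℤ := fun j => if j ∈ I.C then (I.q j : ℤ) else 0

theorem f_real (I : Inst) (x : Fin I.n → ℤ) :
    (I.f x : ℝ) = gR (qq I) I.h (fun j => (x j : ℝ)) - ∑ i ∈ I.V, (I.q i : ℝ) * (x i : ℝ) ^ 2 := by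
  unfold Inst.f gR qq
  push_cast
  rw [Finset.sum_add_distrib]
  have h : ∑ j, ((((if j ∈ I.C then (I.q j : ℤ) else 0) : ℤ) : ℝ)) * (x j : ℝ) ^ 2 =
      ∑ i ∈ I.C, (I.q i : ℝ) * (x i : ℝ) ^ 2 := by
    rw [← Finset.sum_filter_add_sum_filter_not Finset.univ (fun j => j ∈ I.C)]
    rw [Finset.sum_filter, Finset.sum_filter]
    have h1 : ∀ j : Fin I.n, (if j ∈ I.C then
        ((((if j ∈ I.C then (I.q j : ℤ) else 0) : ℤ) : ℝ)) * (x j : ℝ) ^ 2 else 0) =
        if j ∈ I.C then (I.q j : ℝ) * (x j : ℝ) ^ 2 else 0 := by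
      intro j
      split_ifs <;> simp
    have h2 : ∀ j : Fin I.n, (if ¬ j ∈ I.C then
        ((((if j ∈ I.C then (I.q j : ℤ) else 0) : ℤ) : ℝ)) * (x j : ℝ) ^ 2 else 0) = 0 := by
      intro j
      split_ifs <;> simp
    rw [Finset.sum_congr rfl fun j _ => h1 j, Finset.sum_congr rfl fun j _ => h2 j,
      Finset.sum_const_zero, add_zero, ← Finset.sum_filter]
    apply Finset.sum_congr _ fun _ _ => rfl
    ext j
    simp
  have h' : ∑ j, ((if j ∈ I.C then (I.q j : ℝ) else 0)) * (x j : ℝ) ^ 2 =
      ∑ i ∈ I.C, (I.q i : ℝ) * (x i : ℝ) ^ 2 := by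
    rw [← h]
    apply Finset.sum_congr rfl
    intro j _
    split_ifs <;> simp
  first
    | rw [h']; ring
    | (rw [h]; ring)

theorem fea_iff (I : Inst) (x : Fin I.n → ℤ) : x ∈ I.feasible ↔ x ∈ Fea I.W I.w := by
  unfold Inst.feasible Fea
  rfl

/-- the length of the binary digits -/
theorem le_pow_bits (a : ℕ) : a ≤ 2 ^ (Nat.bits a).length := by
  rw [Nat.size_eq_bits_len]
  exact (Nat.lt_size_self a).le

theorem szC_eq (I : Inst) : szC I.code = I.n +
    ∑ i, ((Nat.bits (I.w i).natAbs).length + 1) +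
    ∑ j, ((Nat.bits (I.h j).natAbs).length + (Nat.bits (I.q j)).length) := by
  unfold szC Inst.code Pool.Agent.Helper45.SQP.intCode
  simp only [List.length_ofFn, List.map_ofFn, List.sum_ofFn, Function.comp_def]

theorem sm (I : Inst) (hTU : I.W.IsTotallyUnimodular) :
    Sm (szC I.code) I.W I.w (qq I) I.h := by
  have hs := szC_eq I
  have h1 : ∀ i, (Nat.bits (I.w i).natAbs).length + 1 ≤
      ∑ i, ((Nat.bits (I.w i).natAbs).length + 1) := fun i =>
    Finset.single_le_sum (f := fun i => (Nat.bits (I.w i).natAbs).length + 1)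
      (fun _ _ => Nat.zero_le _) (Finset.mem_univ i)
  have h2 : ∀ j, (Nat.bits (I.h j).natAbs).length + (Nat.bits (I.q j)).length ≤
      ∑ j, ((Nat.bits (I.h j).natAbs).length + (Nat.bits (I.q j)).length) := fun j =>
    Finset.single_le_sum (f := fun j => (Nat.bits (I.h j).natAbs).length +
      (Nat.bits (I.q j)).length) (fun _ _ => Nat.zero_le _) (Finset.mem_univ j)
  have h3 : I.m ≤ ∑ i, ((Nat.bits (I.w i).natAbs).length + 1) := by
    have : ∑ _i : Fin I.m, 1 ≤ ∑ i, ((Nat.bits (I.w i).natAbs).length + 1) :=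
      Finset.sum_le_sum fun i _ => by omega
    simpa using this
  have hm := I.m_pos
  have hn := I.n_pos
  have habs : ∀ (z : ℤ), (Nat.bits z.natAbs).length ≤ szC I.code → |z| ≤ 2 ^ szC I.code := by
    intro z hz
    have e1 := le_pow_bits z.natAbs
    have e2 : (2 : ℕ) ^ (Nat.bits z.natAbs).length ≤ 2 ^ szC I.code :=
      Nat.pow_le_pow_right (by norm_num) hz
    rw [Int.abs_eq_natAbs]
    exact_mod_cast e1.trans e2
  refine ⟨by omega, by omega, by omega, ?_, ?_, ?_, ?_, ?_⟩
  · intro i j
    obtain ⟨s, hs⟩ := hTU.apply i j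
    rw [← hs]
    cases s <;> simp
  · intro i
    apply habs
    have := h1 i
    omega
  · intro j
    unfold qq
    split_ifs <;> positivity
  · intro j
    unfold qq
    split_ifs
    · have := h2 j
      have e1 := le_pow_bits (I.q j)
      have e2 : (2 : ℕ) ^ (Nat.bits (I.q j)).length ≤ 2 ^ szC I.code :=
        Nat.pow_le_pow_right (by norm_num) (by omega)
      exact_mod_cast e1.trans e2
    · positivity
  · intro j
    apply habs
    have := h2 j
    omega

theorem q_le (I : Inst) (j : Fin I.n) : ((I.q j : ℕ) : ℤ) ≤ 2 ^ szC I.code := by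
  have hs := szC_eq I
  have h2 : (Nat.bits (I.h j).natAbs).length + (Nat.bits (I.q j)).length ≤
      ∑ j, ((Nat.bits (I.h j).natAbs).length + (Nat.bits (I.q j)).length) :=
    Finset.single_le_sum (f := fun j => (Nat.bits (I.h j).natAbs).length +
      (Nat.bits (I.q j)).length) (fun _ _ => Nat.zero_le _) (Finset.mem_univ j)
  have e1 := le_pow_bits (I.q j)
  have e2 : (2 : ℕ) ^ (Nat.bits (I.q j)).length ≤ 2 ^ szC I.code :=
    Nat.pow_le_pow_right (by norm_num) (by omega)
  exact_mod_cast e1.trans e2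

/-- a decreasing ray of the linear variables -/
theorem ray_unbounded (I : Inst) (x0 : Fin I.n → ℤ) (hx0 : x0 ∈ I.feasible)
    (r : Fin I.n → ℤ) (hr : ∀ i, ∑ j, I.W i j * r j ≤ 0) (hr0 : ∀ j ∈ I.C ∪ I.V, r j = 0)
    (hh : ∑ j, I.h j * r j < 0) : I.UnboundedBelow := by
  intro M
  set k : ℕ := (I.f x0 - M).toNat + 1 with hk
  refine ⟨fun j => x0 j + k * r j, ?_, ?_⟩
  · rw [fea_iff] at hx0 ⊢
    intro i
    have h1 := hx0 i
    have h2 : ∑ j, I.W i j * (x0 j + k * r j) = ∑ j, I.W i j * x0 j +
        k * ∑ j, I.W i j * r j := by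
      rw [Finset.mul_sum, ← Finset.sum_add_distrib]
      exact Finset.sum_congr rfl fun j _ => by ring
    have h3 : (k : ℤ) * ∑ j, I.W i j * r j ≤ 0 :=
      mul_nonpos_of_nonneg_of_nonpos (Int.natCast_nonneg _) (hr i)
    change ∑ j, I.W i j * (x0 j + k * r j) ≤ I.w i
    rw [h2]
    change ∑ j, I.W i j * x0 j ≤ I.w i at h1
    linarith
  · have h1 : I.f (fun j => x0 j + k * r j) = I.f x0 + k * ∑ j, I.h j * r j := by
      unfold Inst.f
      have a1 : ∑ i ∈ I.C, (I.q i : ℤ) * (x0 i + k * r i) ^ 2 =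
          ∑ i ∈ I.C, (I.q i : ℤ) * x0 i ^ 2 := by
        refine Finset.sum_congr rfl fun j hj => ?_
        rw [hr0 j (Finset.mem_union_left _ hj)]
        ring
      have a2 : ∑ i ∈ I.V, (I.q i : ℤ) * (x0 i + k * r i) ^ 2 =
          ∑ i ∈ I.V, (I.q i : ℤ) * x0 i ^ 2 := by
        refine Finset.sum_congr rfl fun j hj => ?_
        rw [hr0 j (Finset.mem_union_right _ hj)]
        ring
      have a3 : ∑ j, I.h j * (x0 j + k * r j) = ∑ j, I.h j * x0 j + k * ∑ j, I.h j * r j := by
        rw [Finset.mul_sum, ← Finset.sum_add_distrib]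
        exact Finset.sum_congr rfl fun j _ => by ring
      rw [a1, a2, a3]
      ring
    rw [h1]
    have h2 : ∑ j, I.h j * r j ≤ -1 := by omega
    have h3 : (k : ℤ) * ∑ j, I.h j * r j ≤ k * (-1) :=
      mul_le_mul_of_nonneg_left h2 (Int.natCast_nonneg _)
    have h4 : I.f x0 - M ≤ (I.f x0 - M).toNat := Int.self_le_toNat _
    have h5 : (k : ℤ) = (I.f x0 - M).toNat + 1 := by
      rw [hk]
      push_cast
      rfl
    linarith

theorem unb_of_real (I : Inst) (h : ∀ M : ℝ, ∃ y ∈ I.feasible, (I.f y : ℝ) < M) :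
    I.UnboundedBelow := by
  intro M
  obtain ⟨y, hy, hM⟩ := h M
  exact ⟨y, hy, by exact_mod_cast hM⟩

theorem real_of_unb (I : Inst) (h : I.UnboundedBelow) (M : ℝ) :
    ∃ y ∈ I.feasible, (I.f y : ℝ) < M := by
  obtain ⟨y, hy, hM⟩ := h ⌊M⌋
  refine ⟨y, hy, lt_of_lt_of_le (b := ((⌊M⌋ : ℤ) : ℝ)) ?_ (Int.floor_le M)⟩
  exact_mod_cast hM

theorem cox (hCor : CorStmt) (hAln : AlnStmt) (hUta : UtaStmt) (hUtb : UtbStmt) (hUna : UnaStmt)
    (hUnb : UnbStmt) (hFwr : FwrStmt) : CoxStmt := by
  intro p K hp hK I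
  have hTU := I.2.1
  have hV : I.1.V.card ≤ 1 := I.2.2.trans hp
  have hSm := sm I.1 hTU
  have hA := hAln 1 K hK ⟨I.1, hTU, hV⟩
  have hC := hCor 1 K hK ⟨I.1, hTU, hV⟩
  simp only at hA hC
  have hcast : (20 * ((1 : ℕ) : ℝ) / K) = 20 / (K : ℝ) := by simp
  rw [hcast] at hC
  have hU1 := hUta I.1 hTU
  have hU2 := hUtb I.1 hTU hV
  unfold alg1
  cases hal : alg 1 K I.1.code with
  | none =>
    have h1 := hA.1 hal
    exact h1
  | some l =>
    have hne : I.1.feasible.Nonempty := by
      by_contra h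
      rw [Set.not_nonempty_iff_eq_empty] at h
      rw [hA.2 h] at hal
      exact absurd hal (by simp)
    obtain ⟨x0, hx0⟩ := hne
    -- the value of the objective if there is one concave variable
    have hf : ∀ v ∈ I.1.V, ∀ x : Fin I.1.n → ℤ, (I.1.f x : ℝ) =
        gR (qq I.1) I.1.h (fun j => (x j : ℝ)) - ((I.1.q v : ℤ) : ℝ) * (x v : ℝ) ^ 2 := by
      intro v hv x
      have hVv : I.1.V = {v} := by
        refine Finset.eq_singleton_iff_unique_mem.2 ⟨hv, fun w hw => ?_⟩
        exact Finset.card_le_one.1 hV w hw v hv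
      rw [f_real, hVv, Finset.sum_singleton]
      push_cast
      rfl
    have hqv : ∀ v ∈ I.1.V, qq I.1 v = 0 := by
      intro v hv
      unfold qq
      rw [if_neg]
      intro hc
      exact Finset.disjoint_left.1 I.1.disj hc hv
    have hNB : unb1 I.1.code = false → ∀ v ∈ I.1.V, NB I.1.W (qq I.1) I.1.h v := by
      intro h1 v hv r hr hrv hrq
      refine hU1.2 h1 r hr fun j hj => ?_
      rw [Finset.mem_union] at hj
      rcases hj with hj | hj
      · refine hrq j ?_
        unfold qq
        rw [if_pos hj]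
        have := I.1.q_pos j (Finset.mem_union_left _ hj)
        exact_mod_cast this.ne'
      · have : j = v := Finset.card_le_one.1 hV j hj v hv
        rw [this]
        exact hrv
    by_cases h1 : unb1 I.1.code = true
    · have e : out1 ((some l).map fun x => if (unb1 I.1.code || unb2 I.1.code) = true then
          (none : Option (List Zn)) else some x) = Output.unbounded := by
        rw [h1]
        simp [out1]
      rw [e]
      obtain ⟨r, hr, hr0, hh⟩ := hU1.1 h1
      exact ray_unbounded I.1 x0 hx0 r hr hr0 hh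
    · have h1' : unb1 I.1.code = false := by simpa using h1
      by_cases h2 : unb2 I.1.code = true
      · have e : out1 ((some l).map fun x => if (unb1 I.1.code || unb2 I.1.code) = true then
            (none : Option (List Zn)) else some x) = Output.unbounded := by
          rw [h2]
          simp [out1]
        rw [e]
        obtain ⟨v, hv, x, hx, hxv, hxb, hfx⟩ := hU2.1 h2
        have hfx' : gR (qq I.1) I.1.h (fun j => (x j : ℝ)) -
            ((I.1.q v : ℤ) : ℝ) * (x v : ℝ) ^ 2 < -2 ^ (3 * eE (szC I.1.code)) := by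
          rw [← hf v hv x]
          exact_mod_cast hfx
        refine unb_of_real I.1 fun M => ?_
        have key : ∀ σ : ℤ, (σ = 1 ∨ σ = -1) → x v = σ * 2 ^ (6 * eE (szC I.1.code)) →
            ∃ y ∈ I.1.feasible, (I.1.f y : ℝ) < M := by
          intro σ hσ hxσ
          obtain ⟨y, hy, hyM⟩ := hUna I.1.m I.1.n (szC I.1.code) I.1.W I.1.w (qq I.1) I.1.h v σ
            (I.1.q v : ℤ) hTU hSm (hqv v hv) hσ (Int.natCast_nonneg _) (q_le I.1 v)
            (hNB h1' v hv) ⟨x, (fea_iff I.1 x).1 hx, hxσ, hfx'⟩ M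
          exact ⟨y, (fea_iff I.1 y).2 hy, by rw [hf v hv y]; exact hyM⟩
        rcases hxv with hxv | hxv
        · exact key 1 (Or.inl rfl) (by rw [hxv, one_mul])
        · exact key (-1) (Or.inr rfl) (by rw [hxv]; ring)
      · have h2' : unb2 I.1.code = false := by simpa using h2
        have e : out1 ((some l).map fun x => if (unb1 I.1.code || unb2 I.1.code) = true then
            (none : Option (List Zn)) else some x) = out (some l) := by
          rw [h1', h2']
          simp [out1, out]
        rw [e]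
        rw [hal] at hC
        refine hC fun hunb => ?_
        rcases Finset.eq_empty_or_nonempty I.1.V with hVe | ⟨v, hv⟩
        · -- no concave variable
          obtain ⟨z, hz, hzmin⟩ := hFwr I.1.m I.1.n (fun i j => (I.1.W i j : ℝ))
            (fun i => (I.1.w i : ℝ)) (fun j => ((qq I.1 j : ℤ) : ℝ)) (fun j => (I.1.h j : ℝ))
            (fun j => by exact_mod_cast hSm.q0 j)
            (fun r hr hrq => by
              refine hU1.2 h1' r hr fun j hj => ?_
              rw [hVe, Finset.union_empty] at hj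
              refine hrq j ?_
              unfold qq
              rw [if_pos hj]
              have := I.1.q_pos j (Finset.mem_union_left _ hj)
              simp only [Int.cast_natCast, ne_eq, Nat.cast_eq_zero]
              exact this.ne')
            ⟨fun j => (x0 j : ℝ), fun i => by
              have := (fea_iff I.1 x0).1 hx0 i
              beta_reduce
              exact_mod_cast this⟩
          obtain ⟨y, hy, hyM⟩ := real_of_unb I.1 hunb
            (∑ j, (((qq I.1 j : ℤ) : ℝ) * z j ^ 2 + (I.1.h j : ℝ) * z j))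
          have h3 := hzmin (fun j => (y j : ℝ)) (fun i => by
            have := (fea_iff I.1 y).1 hy i
            beta_reduce
            exact_mod_cast this)
          rw [f_real, hVe, Finset.sum_empty, sub_zero] at hyM
          unfold gR at hyM
          linarith
        · obtain ⟨x, hx, hxv, hxb, hxf⟩ := hUnb I.1.m I.1.n (szC I.1.code) I.1.W I.1.w (qq I.1)
            I.1.h v (I.1.q v : ℤ) hTU hSm (hqv v hv) (Int.natCast_nonneg _) (q_le I.1 v)
            (hNB h1' v hv) (fun M => by
              obtain ⟨y, hy, hyM⟩ := real_of_unb I.1 hunb M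
              exact ⟨y, (fea_iff I.1 y).1 hy, by rw [← hf v hv y]; exact hyM⟩)
          apply h2
          refine hU2.2 ⟨v, hv, x, (fea_iff I.1 x).2 hx, hxv, hxb, ?_⟩
          rw [← hf v hv x] at hxf
          exact_mod_cast hxf

end

end Pool.Agent.Helper82.SQ
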